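import Mathlib
import Pool.Agent.Lib.helper13.Rsp

set_option autoImplicit false

namespace Pool.Agent.Results.MP_84eedd_co.Counter

open Polynomial Finset H13Rsp

/-- The roots with multiplicity, in decreasing order. -/
noncomputable def rootList (p : ℝ[X]) : List ℝ := p.roots.sort (· ≥ ·)

/-- The chain of inequalities defining `f ⪯ g`. -/
def Chain (f g : ℝ[X]) : Prop :=
  (∀ (i : ℕ) (h1 : i < (rootList f).length) (h2 : i < (rootList g).length),
    (rootList f)[i] ≤ (rootList g)[i]) ∧
  ∀ (i : ℕ) (h1 : i < (rootList f).length) (h2 : i + 1 < (rootList g).length),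
    (rootList g)[i + 1] ≤ (rootList f)[i]

def lam (k : ℕ) : ℝ :=
  if k = 2 then 24 else if k = 3 then 6 else if k = 4 then 189 else if k = 5 then 2 else 1

theorem rl (c a b : ℝ) (hc : c ≠ 0) (h : b ≤ a) :
    rootList (C c * ((X - C a) * (X - C b))) = [a, b] := by
  rw [rootList, roots_C_mul _ hc, roots_mul (mul_ne_zero (X_sub_C_ne_zero _) (X_sub_C_ne_zero _)),
    roots_X_sub_C, roots_X_sub_C, Multiset.singleton_add, Multiset.sort_cons, Multiset.sort_singleton]
  simpa using h

theorem Q5 : Q lam 4 = C (21 * 648) * ((X - C (-1 / 648)) * (X - C (-1 / 21))) := by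
  rw [Q, sum_rsp (fun k => C (lam k) * X)]
  apply Polynomial.funext
  intro x
  simp [f, sum_range_succ, lam]
  ring

theorem Q6 : Q lam 5 = C (20 * 1839) * ((X - C (-1 / 1839)) * (X - C (-1 / 20))) := by
  rw [Q, sum_rsp (fun k => C (lam k) * X)]
  apply Polynomial.funext
  intro x
  simp [f, sum_range_succ, lam]
  ring

theorem result : ∃ (lam : ℕ → ℝ) (n : ℕ), (∀ k, 0 < lam k) ∧ ¬ Chain (Q lam n) (Q lam (n + 1)) := by
  refine ⟨lam, 4, fun k => by unfold lam; split_ifs <;> norm_num, fun h => ?_⟩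
  have h5 := rl (21 * 648) (-1 / 648) (-1 / 21) (by norm_num) (by norm_num)
  have h6 := rl (20 * 1839) (-1 / 1839) (-1 / 20) (by norm_num) (by norm_num)
  rw [← Q5] at h5
  rw [← Q6] at h6
  have := h.1 1 (by rw [h5]; simp) (by rw [h6]; simp)
  simp only [h5, h6] at this
  norm_num at this

end Pool.Agent.Results.MP_84eedd_co.Counter
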