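import Mathlib
import Pool.Agent.Lib.helper13.Rsp

set_option autoImplicit false

namespace Pool.Agent.Results.MP_84eedd_co.Stable

open Polynomial Finset H13Cone H13Rsp

theorem result (lam : ℕ → ℝ) (hl : ∀ k, 1 ≤ k → 0 < lam k) (n : ℕ) (z : ℂ)
    (hz : aeval z (Q lam n) = 0) : z.im = 0 := by
  refine real_of_upper _ (fun t ht => ?_) z hz
  obtain ⟨θ, h0, h1, h2⟩ := exists_HA ht
  obtain ⟨α, a1, -⟩ := chain_f θ h0.le h1 n (fun k => lam k * t)
    fun k => h2.smul (hl _ (by omega))
  have := (a1 0 (by omega)).ne_zero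
  rw [← sum_rsp] at this
  simpa only [Q, map_sum, map_prod, map_mul, aeval_C, aeval_X, Complex.coe_algebraMap] using this

end Pool.Agent.Results.MP_84eedd_co.Stable
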